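import Mathlib
import Pool.Agent.H52.C7Tup

set_option autoImplicit false

namespace Pool.Agent.Results.MP_036792_co.EveryTuple

open Finset

/-- The number C_2 of the problem (the Lovasz theta number of the 7-cycle). -/
noncomputable def C2 : ℝ := 7 * Real.cos (Real.pi / 7) / (1 + Real.cos (Real.pi / 7))

/-- The proportion of the elements of A that have the letters z_1,...,z_k at the coordinates
i_1,...,i_k. -/
noncomputable def freq {n k : ℕ} (A : Finset (Fin n → ZMod 7)) (i : Fin k → Fin n)
    (z : Fin k → ZMod 7) : ℝ :=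
  ((A.filter (fun a => ∀ l, a (i l) = z l)).card : ℝ) / (A.card : ℝ)

/-- The relative entropy, with respect to the uniform law on F_7^k, of the joint law of the
letters of a uniform random element of A at the coordinates i_1,...,i_k (and 0 * log 0 = 0). -/
noncomputable def relEnt {n k : ℕ} (A : Finset (Fin n → ZMod 7)) (i : Fin k → Fin n) : ℝ :=
  ∑ z : Fin k → ZMod 7, freq A i z * Real.log (7 ^ k * freq A i z)

/-- Let A be a nonempty subset of F_7^n in which no two distinct elements differ by a vector of
`{-1,0,1}^n` and let i = (i_1,...,i_k) be any k distinct coordinates. Then A has at most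
7^k * C_2^(n-k) * exp(-E(i) - (1/490) * (sum over the other coordinates j of E(j,i) - E(i)))
elements, where E(i) = relEnt A i and E(j,i) = relEnt A (j,i_1,...,i_k). -/
theorem result (k n : ℕ) (A : Finset (Fin n → ZMod 7)) (hne : A.Nonempty)
    (hA : ∀ a ∈ A, ∀ b ∈ A,
      (∀ i, a i - b i = -1 ∨ a i - b i = 0 ∨ a i - b i = 1) → a = b)
    (i : Fin k → Fin n) (hi : Function.Injective i) :
    (A.card : ℝ) ≤ 7 ^ k * C2 ^ (n - k) * Real.exp (-(relEnt A i) -
      1 / 490 * ∑ j ∈ (univ.image i)ᶜ,
        (relEnt A (Fin.cons j i : Fin (k + 1) → Fin n) - relEnt A i)) :=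
  Pool.Agent.H52.Tup.main k n A hne hA i hi

end Pool.Agent.Results.MP_036792_co.EveryTuple
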