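import Mathlib
import Pool.Agent.H52.C7Stab

set_option autoImplicit false

namespace Pool.Agent.Results.MP_036792_co.LovaszStability

open Finset

/-- The weight on differences: 1 at 0, 1/(2 cos(pi/7)) at 1 and -1, and 0 elsewhere. -/
noncomputable def wt (d : ZMod 7) : ℝ :=
  if d = 0 then 1 else if d = 1 ∨ d = -1 then 1 / (2 * Real.cos (Real.pi / 7)) else 0

/-- The number C_2 of the problem (the Lovasz theta number of the 7-cycle). -/
noncomputable def C2 : ℝ := 7 * Real.cos (Real.pi / 7) / (1 + Real.cos (Real.pi / 7))

/-- Mean over all ordered pairs (a,b) in A x A of the product of the weights of the differences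
a i - b i over the coordinates i of the block number j. -/
noncomputable def kappa {n r : ℕ} (p : Fin n → Fin r) (A : Finset (Fin n → ZMod 7))
    (j : Fin r) : ℝ :=
  (∑ a ∈ A, ∑ b ∈ A, ∏ i ∈ univ.filter (fun i => p i = j), wt (a i - b i)) / (A.card : ℝ) ^ 2

/-- Let A be a nonempty subset of F_7^n in which no two distinct elements differ by a vector of
`{-1,0,1}^n`, and let p be any partition of the coordinates into blocks. Then every block mean
kappa is at least C_2^(-(size of the block)), and A has at most
C_2^n * exp(-(1/2) * (sum over the blocks of kappa - C_2^(-(size of the block)))) elements. -/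
theorem result (n r : ℕ) (p : Fin n → Fin r) (A : Finset (Fin n → ZMod 7)) (hne : A.Nonempty)
    (hA : ∀ a ∈ A, ∀ b ∈ A,
      (∀ i, a i - b i = -1 ∨ a i - b i = 0 ∨ a i - b i = 1) → a = b) :
    (∀ j, (1 / C2) ^ (univ.filter (fun i => p i = j)).card ≤ kappa p A j) ∧
      (A.card : ℝ) ≤ C2 ^ n * Real.exp (-(1/2) *
        ∑ j, (kappa p A j - (1 / C2) ^ (univ.filter (fun i => p i = j)).card)) :=
  Pool.Agent.H52.Stab.main n r p A hne hA

end Pool.Agent.Results.MP_036792_co.LovaszStability
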